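import Pool.Agent.H852R2.DM.Defs
import Pool.Agent.H852R2.DM.S.AMP1Q
import Pool.Agent.H852R2.DM.S.RTD
import Pool.Agent.H14R2.RC.Low

/-! Task ZD of the project DM (MP_75608d_al). -/

namespace DM852
open RC14 RC852 Finset Filter Equiv

namespace ZD

section
variable {G : Type*} [Group G] [Fintype G]
variable {V : Type*} [NormedAddCommGroup V] [InnerProductSpace ℂ V] [FiniteDimensional ℂ V]

/-- union bound over the components of an invariant subspace -/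
lemma ubd (ρ : G →* (V ≃ₗᵢ[ℂ] V)) (M : Submodule ℂ V) (hM : Inv ρ M) (q m : ℕ) (hq : 1 ≤ q)
    (x b : Fin q → G) (L : ℕ) (η : ℝ) (hη0 : 0 ≤ η)
    (hη : ∀ (W : Submodule ℂ V) (hW : Irr ρ W), W ≤ M →
      RS ρ W hW.2.1 x b m (2 * L) ≤ η * Module.finrank ℂ W)
    (q' : ℕ) (hq' : 1 ≤ q') (D : ℕ) (hD : Module.finrank ℂ M ≤ D) :
    (Nat.card {z : Fin q' → G // ¬ ∀ v ∈ M,
        1 / (16 * (q' : ℝ) ^ 2) * ‖v‖ ^ 2 ≤
          96 * (m : ℝ) ^ 2 / q * En ρ x v + 16 / (q : ℝ) * En ρ b v + En ρ z v} : ℝ) ≤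
      4 * (D : ℝ) ^ 2 * ((8 / 7 : ℝ) ^ (2 * L) * η) ^ q' * (Fintype.card G : ℝ) ^ q' := by
  obtain ⟨N, W, hN, hW, hdec⟩ := DECOMP ρ M hM
  have step : Nat.card {z : Fin q' → G // ¬ ∀ v ∈ M,
        1 / (16 * (q' : ℝ) ^ 2) * ‖v‖ ^ 2 ≤
          96 * (m : ℝ) ^ 2 / q * En ρ x v + 16 / (q : ℝ) * En ρ b v + En ρ z v} ≤
      ∑ i, Nat.card {z : Fin q' → G // ¬ ∀ v ∈ W i,
        1 / (16 * (q' : ℝ) ^ 2) * ‖v‖ ^ 2 ≤
          96 * (m : ℝ) ^ 2 / q * En ρ x v + 16 / (q : ℝ) * En ρ b v + En ρ z v} := by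
    apply RC14.card_union
    intro z hz
    by_contra hcon
    push Not at hcon
    apply hz
    intro v hv
    have key : ∀ v : V, ∑ t, (Fin.append (Fin.append (fun _ : Fin q => 96 * (m : ℝ) ^ 2 / q)
        (fun _ : Fin q => 16 / (q : ℝ))) (fun _ : Fin q' => (1 : ℝ))) t *
          ‖ρ (Fin.append (Fin.append x b) z t) v - v‖ ^ 2 =
        96 * (m : ℝ) ^ 2 / q * En ρ x v + 16 / (q : ℝ) * En ρ b v + En ρ z v := by
      intro v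
      rw [Fin.sum_univ_add, Fin.sum_univ_add]
      simp only [Fin.append_left, Fin.append_right, En, Finset.mul_sum, one_mul]
    have := hdec (q + q + q') (Fin.append (Fin.append x b) z)
      (Fin.append (Fin.append (fun _ : Fin q => 96 * (m : ℝ) ^ 2 / q)
        (fun _ : Fin q => 16 / (q : ℝ))) (fun _ : Fin q' => (1 : ℝ)))
      (1 / (16 * (q' : ℝ) ^ 2)) ?_ ?_ v hv
    · rwa [key] at this
    · intro i
      refine Fin.addCases (fun i => ?_) (fun i => ?_) i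
      · rw [Fin.append_left]
        refine Fin.addCases (fun i => ?_) (fun i => ?_) i
        · rw [Fin.append_left]; positivity
        · rw [Fin.append_right]; positivity
      · rw [Fin.append_right]; positivity
    · intro i v hv
      rw [key]
      exact hcon i v hv
  have hb : ∀ i, (Nat.card {z : Fin q' → G // ¬ ∀ v ∈ W i,
        1 / (16 * (q' : ℝ) ^ 2) * ‖v‖ ^ 2 ≤
          96 * (m : ℝ) ^ 2 / q * En ρ x v + 16 / (q : ℝ) * En ρ b v + En ρ z v} : ℝ) ≤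
      4 * D * ((8 / 7 : ℝ) ^ (2 * L) * η) ^ q' * (Fintype.card G : ℝ) ^ q' := by
    intro i
    refine (AMP1Q ρ (W i) (hW i).1 q m hq x b L η (hη (W i) (hW i).1 (hW i).2) q' hq').trans ?_
    have : (Module.finrank ℂ (W i) : ℝ) ≤ D := by
      exact_mod_cast (Submodule.finrank_mono (hW i).2).trans hD
    gcongr
  calc (Nat.card {z : Fin q' → G // ¬ ∀ v ∈ M,
        1 / (16 * (q' : ℝ) ^ 2) * ‖v‖ ^ 2 ≤
          96 * (m : ℝ) ^ 2 / q * En ρ x v + 16 / (q : ℝ) * En ρ b v + En ρ z v} : ℝ)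
      ≤ ∑ i, (Nat.card {z : Fin q' → G // ¬ ∀ v ∈ W i,
        1 / (16 * (q' : ℝ) ^ 2) * ‖v‖ ^ 2 ≤
          96 * (m : ℝ) ^ 2 / q * En ρ x v + 16 / (q : ℝ) * En ρ b v + En ρ z v} : ℝ) := by
        exact_mod_cast step
    _ ≤ ∑ i : Fin N, 4 * D * ((8 / 7 : ℝ) ^ (2 * L) * η) ^ q' * (Fintype.card G : ℝ) ^ q' :=
        Finset.sum_le_sum fun i _ => hb i
    _ = N * (4 * D * ((8 / 7 : ℝ) ^ (2 * L) * η) ^ q' * (Fintype.card G : ℝ) ^ q') := by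
        simp
    _ ≤ D * (4 * D * ((8 / 7 : ℝ) ^ (2 * L) * η) ^ q' * (Fintype.card G : ℝ) ^ q') := by
        have : (N : ℝ) ≤ D := by exact_mod_cast hN.trans hD
        gcongr
    _ = _ := by ring
end

lemma mD_le (δ : ℝ) (hδ : 0 < δ) (hδ1 : δ ≤ 1 / 8) (n : ℕ) (hn : 1 ≤ n) : mD δ n ≤ n := by
  unfold mD
  have h1 : (1 : ℝ) ≤ n := by exact_mod_cast hn
  have h2 : (n : ℝ) ^ (1 / 2 - δ) ≤ (n : ℝ) ^ (1 : ℝ) :=
    Real.rpow_le_rpow_of_exponent_le h1 (by linarith)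
  rw [Real.rpow_one] at h2
  exact Nat.floor_le_of_le h2

/-- the numerical estimate -/
lemma num (δ : ℝ) (hδ : 0 < δ) (q' : ℕ) (hq' : 16 / δ ≤ q') :
    ∀ᶠ n : ℕ in atTop, ∀ j : ℕ, 1 ≤ j →
      4 * ((n : ℝ) ^ j) ^ 2 * ((8 / 7 : ℝ) ^ (2 * (32 * j)) * (6 * (n : ℝ) ^ (-δ)) ^ j) ^ q' ≤
        1 / (n : ℝ) ^ 2 := by
  set c : ℝ := (8 / 7 : ℝ) ^ 64 * 6 with hc
  have hc0 : 0 < c := by positivity
  have hev : ∀ᶠ n : ℕ in atTop, c ^ q' ≤ n :=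
    tendsto_natCast_atTop_atTop.eventually_ge_atTop _
  filter_upwards [hev, eventually_ge_atTop 2] with n h1 h2 j hj
  have hn2 : (2 : ℝ) ≤ n := by exact_mod_cast h2
  have hn0 : (0 : ℝ) < n := by linarith
  have hn1 : (1 : ℝ) ≤ n := by linarith
  have hq1 : 16 ≤ δ * q' := by
    rw [div_le_iff₀ hδ] at hq'
    linarith [mul_comm δ (q' : ℝ)]
  have e1 : 4 * ((n : ℝ) ^ j) ^ 2 *
      ((8 / 7 : ℝ) ^ (2 * (32 * j)) * (6 * (n : ℝ) ^ (-δ)) ^ j) ^ q' =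
      4 * ((n : ℝ) ^ 2 * (c ^ q' * ((n : ℝ) ^ (-δ)) ^ q')) ^ j := by
    have a1 : (8 / 7 : ℝ) ^ (2 * (32 * j)) * (6 * (n : ℝ) ^ (-δ)) ^ j =
        (c * (n : ℝ) ^ (-δ)) ^ j := by
      have a2 : (8 / 7 : ℝ) ^ (2 * (32 * j)) = ((8 / 7 : ℝ) ^ 64) ^ j := by
        rw [← pow_mul]; congr 1; ring
      rw [a2, ← mul_pow, hc, ← mul_assoc]
    rw [a1, ← mul_pow c, mul_pow ((n : ℝ) ^ 2), ← pow_mul, ← pow_mul, ← pow_mul, ← pow_mul,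
      mul_comm j 2, mul_comm j q']
    ring
  rw [e1]
  have e2 : ((n : ℝ) ^ (-δ)) ^ q' = (n : ℝ) ^ (-(δ * q')) := by
    rw [← Real.rpow_natCast, ← Real.rpow_mul hn0.le]
    congr 1; ring
  have e3 : (n : ℝ) ^ (-(δ * q')) ≤ (n : ℝ) ^ (-(16 : ℝ)) :=
    Real.rpow_le_rpow_of_exponent_le hn1 (by linarith)
  have e4 : (n : ℝ) ^ (-(16 : ℝ)) = 1 / (n : ℝ) ^ 16 := by
    rw [Real.rpow_neg hn0.le, show (16 : ℝ) = ((16 : ℕ) : ℝ) by norm_num, Real.rpow_natCast,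
      one_div]
  have hB : (n : ℝ) ^ 2 * (c ^ q' * ((n : ℝ) ^ (-δ)) ^ q') ≤ 1 / (n : ℝ) ^ 4 := by
    rw [e2]
    calc (n : ℝ) ^ 2 * (c ^ q' * (n : ℝ) ^ (-(δ * q'))) ≤
        (n : ℝ) ^ 2 * ((n : ℝ) * (1 / (n : ℝ) ^ 16)) := by
          rw [e4] at e3
          gcongr
      _ = 1 / (n : ℝ) ^ 13 := by field_simp
      _ ≤ 1 / (n : ℝ) ^ 4 := by
          apply one_div_le_one_div_of_le (by positivity)
          exact pow_le_pow_right₀ hn1 (by norm_num)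
  have hB0 : 0 ≤ (n : ℝ) ^ 2 * (c ^ q' * ((n : ℝ) ^ (-δ)) ^ q') := by positivity
  have hB1 : (n : ℝ) ^ 2 * (c ^ q' * ((n : ℝ) ^ (-δ)) ^ q') ≤ 1 := by
    refine hB.trans ?_
    rw [div_le_one (by positivity)]
    exact one_le_pow₀ hn1
  have hp : ((n : ℝ) ^ 2 * (c ^ q' * ((n : ℝ) ^ (-δ)) ^ q')) ^ j ≤
      (n : ℝ) ^ 2 * (c ^ q' * ((n : ℝ) ^ (-δ)) ^ q') := by
    calc _ ≤ ((n : ℝ) ^ 2 * (c ^ q' * ((n : ℝ) ^ (-δ)) ^ q')) ^ 1 :=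
          pow_le_pow_of_le_one hB0 hB1 hj
      _ = _ := pow_one _
  calc 4 * ((n : ℝ) ^ 2 * (c ^ q' * ((n : ℝ) ^ (-δ)) ^ q')) ^ j ≤
      4 * (1 / (n : ℝ) ^ 4) := by linarith [hp.trans hB]
    _ ≤ 1 / (n : ℝ) ^ 2 := by
        rw [mul_one_div, div_le_div_iff₀ (by positivity) (by positivity)]
        have : (4 : ℝ) ≤ (n : ℝ) ^ 2 := by nlinarith
        calc 4 * (n : ℝ) ^ 2 ≤ (n : ℝ) ^ 2 * (n : ℝ) ^ 2 := by gcongr
          _ = 1 * (n : ℝ) ^ 4 := by ring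

end ZD

open ZD in
theorem ZD (δ : ℝ) (hδ : 0 < δ) (hδ1 : δ ≤ 1 / 8) (q' : ℕ) (hq' : 16 / δ ≤ q') :
    ∀ᶠ n : ℕ in atTop, ∀ (q m : ℕ) (x b : Fin q → Alt n), 1 ≤ q →
    GoodD δ (gx x m) (cb b) →
    (Nat.card {z : Fin q' → Alt n // ¬ ∀ j, 1 ≤ j → j ≤ mD δ n → ∀ v ∈ Lvl j n,
        1 / (16 * (q' : ℝ) ^ 2) * ‖v‖ ^ 2 ≤ 96 * (m : ℝ) ^ 2 / q * En (repA j n) x v +
          16 / (q : ℝ) * En (repA j n) b v + En (repA j n) z v} : ℝ) ≤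
      1 / (n : ℝ) * (Fintype.card (Alt n) : ℝ) ^ q' := by
  have hq1' : 1 ≤ q' := by
    have h1 : 0 < (q' : ℝ) := lt_of_lt_of_le (by positivity) hq'
    exact_mod_cast h1
  filter_upwards [RTD δ hδ hδ1, num δ hδ q' hq', eventually_ge_atTop 1] with n hRT hnum hn1
  intro q m x b hq hG
  have hnpos : (0 : ℝ) < n := by exact_mod_cast hn1
  have step : Nat.card {z : Fin q' → Alt n // ¬ ∀ j, 1 ≤ j → j ≤ mD δ n → ∀ v ∈ Lvl j n,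
        1 / (16 * (q' : ℝ) ^ 2) * ‖v‖ ^ 2 ≤ 96 * (m : ℝ) ^ 2 / q * En (repA j n) x v +
          16 / (q : ℝ) * En (repA j n) b v + En (repA j n) z v} ≤
      ∑ j ∈ Finset.Icc 1 (mD δ n), Nat.card {z : Fin q' → Alt n // ¬ ∀ v ∈ Lvl j n,
        1 / (16 * (q' : ℝ) ^ 2) * ‖v‖ ^ 2 ≤ 96 * (m : ℝ) ^ 2 / q * En (repA j n) x v +
          16 / (q : ℝ) * En (repA j n) b v + En (repA j n) z v} := by
    apply RC14.card_union_fin
    intro z hz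
    by_contra hcon
    push Not at hcon
    exact hz fun j h1 h2 => hcon j (Finset.mem_Icc.mpr ⟨h1, h2⟩)
  have hj : ∀ j ∈ Finset.Icc 1 (mD δ n), (Nat.card {z : Fin q' → Alt n // ¬ ∀ v ∈ Lvl j n,
        1 / (16 * (q' : ℝ) ^ 2) * ‖v‖ ^ 2 ≤ 96 * (m : ℝ) ^ 2 / q * En (repA j n) x v +
          16 / (q : ℝ) * En (repA j n) b v + En (repA j n) z v} : ℝ) ≤
      1 / (n : ℝ) ^ 2 * (Fintype.card (Alt n) : ℝ) ^ q' := by
    intro j hj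
    rw [Finset.mem_Icc] at hj
    refine (ubd (repA j n) (Lvl j n) (Lvl_inv j n) q m hq x b (32 * j)
      ((6 * (n : ℝ) ^ (-δ)) ^ j) (by positivity)
      (fun W hW hWL => hRT q m x b hq hG j hj.1 hj.2 W hW hWL) q' hq1' (n ^ j)
      (finrank_le_pow _)).trans ?_
    refine mul_le_mul_of_nonneg_right ?_ (by positivity)
    have := hnum j hj.1
    push_cast
    exact this
  calc (Nat.card {z : Fin q' → Alt n // ¬ ∀ j, 1 ≤ j → j ≤ mD δ n → ∀ v ∈ Lvl j n,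
        1 / (16 * (q' : ℝ) ^ 2) * ‖v‖ ^ 2 ≤ 96 * (m : ℝ) ^ 2 / q * En (repA j n) x v +
          16 / (q : ℝ) * En (repA j n) b v + En (repA j n) z v} : ℝ)
      ≤ ∑ j ∈ Finset.Icc 1 (mD δ n), (Nat.card {z : Fin q' → Alt n // ¬ ∀ v ∈ Lvl j n,
        1 / (16 * (q' : ℝ) ^ 2) * ‖v‖ ^ 2 ≤ 96 * (m : ℝ) ^ 2 / q * En (repA j n) x v +
          16 / (q : ℝ) * En (repA j n) b v + En (repA j n) z v} : ℝ) := by
        exact_mod_cast step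
    _ ≤ ∑ _j ∈ Finset.Icc 1 (mD δ n), 1 / (n : ℝ) ^ 2 * (Fintype.card (Alt n) : ℝ) ^ q' :=
        Finset.sum_le_sum hj
    _ = (mD δ n : ℝ) * (1 / (n : ℝ) ^ 2 * (Fintype.card (Alt n) : ℝ) ^ q') := by
        simp
    _ ≤ (n : ℝ) * (1 / (n : ℝ) ^ 2 * (Fintype.card (Alt n) : ℝ) ^ q') := by
        have : (mD δ n : ℝ) ≤ n := by exact_mod_cast mD_le δ hδ hδ1 n hn1
        gcongr
    _ = 1 / (n : ℝ) * (Fintype.card (Alt n) : ℝ) ^ q' := by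
        field_simp

end DM852
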